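import Pool.Agent.G02.StmtsR

/-!
# Squad G02 (MP_ba5221_nt), row SCC: scaling of classes
-/

set_option autoImplicit false

namespace Pool.Agent.G02.H87

open Pool.Agent.G02

theorem sq_of_mul {u m : ℚ} (hm : m ≠ 0) (h : IsSquare (u * m ^ 2)) : IsSquare u := by
  obtain ⟨r, hr⟩ := h
  refine ⟨r / m, ?_⟩
  field_simp
  linear_combination hr

theorem mul_of_sq {u : ℚ} (m : ℚ) (h : IsSquare u) : IsSquare (u * m ^ 2) := by
  obtain ⟨r, hr⟩ := h
  exact ⟨r * m, by rw [hr]; ring⟩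

theorem scc1 (a b m : ℚ) (S : Set ℚ) (hm : m ≠ 0) :
    Cl (a * m ^ 2) (b * m ^ 4) S ↔ Cl a b S := by
  constructor
  · intro h x y hx hy
    obtain ⟨s, hs, h1⟩ := h (m ^ 2 * x) (m ^ 3 * y) (mul_ne_zero (pow_ne_zero _ hm) hx)
      (by linear_combination m ^ 6 * hy)
    refine ⟨s, hs, ?_⟩
    rcases h1 with h1 | h1
    · left
      refine sq_of_mul hm ?_
      have e : s * x * m ^ 2 = s * (m ^ 2 * x) := by ring
      rw [e]
      exact h1
    · right
      have h2 : IsSquare (s * b * x * (m ^ 3) ^ 2) := by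
        have e : s * b * x * (m ^ 3) ^ 2 = s * (b * m ^ 4) * (m ^ 2 * x) := by ring
        rw [e]
        exact h1
      exact sq_of_mul (pow_ne_zero 3 hm) h2
  · intro h x y hx hy
    have hx' : x / m ^ 2 ≠ 0 := div_ne_zero hx (pow_ne_zero _ hm)
    have hy' : (y / m ^ 3) ^ 2 = x / m ^ 2 * ((x / m ^ 2) ^ 2 + a * (x / m ^ 2) + b) := by
      field_simp
      linear_combination hy
    obtain ⟨s, hs, h1⟩ := h (x / m ^ 2) (y / m ^ 3) hx' hy'
    refine ⟨s, hs, ?_⟩
    rcases h1 with h1 | h1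
    · left
      have e : s * x = s * (x / m ^ 2) * m ^ 2 := by field_simp
      rw [e]
      exact mul_of_sq m h1
    · right
      have e : s * (b * m ^ 4) * x = s * b * (x / m ^ 2) * (m ^ 3) ^ 2 := by field_simp
      rw [e]
      exact mul_of_sq (m ^ 3) h1

theorem scc : SccStmt := by
  refine ⟨fun a b m S hm => scc1 a b m S hm, fun a b S => ?_⟩
  have e1 : -2 * (-2 * a) = a * 2 ^ 2 := by ring
  have e2 : (-2 * a) ^ 2 - 4 * (a ^ 2 - 4 * b) = b * 2 ^ 4 := by ring
  rw [e1, e2]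
  exact scc1 a b 2 S two_ne_zero

end Pool.Agent.G02.H87
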